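import Pool.Agent.Helper51.SDL.Goals
import Pool.Agent.Helper40.RD.TRF

/-!
# Project SD (MP_fc6b1e_nt), packet SDL-LOC: the lattice for a number field
-/

set_option autoImplicit false
set_option linter.unusedSectionVars false

namespace Pool.Agent.Helper72.SDL.LOC

open NumberField Module IsDedekindDomain
open Pool.Agent.Helper51.RP Pool.Agent.Helper51.REC Pool.Agent.Helper51.SDL
open Pool.Agent.Helper40.RS (bel gw bel_smul lies val_smul efg)
open Pool.Agent.Helper40.RD (bel_of_above valW)

/-- Above every prime there is a prime. -/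
theorem exists_above (F E : Type) [Field F] [NumberField F] [Field E] [NumberField E]
    [Algebra F E] (v : HeightOneSpectrum (𝓞 F)) : ∃ w : HeightOneSpectrum (𝓞 E), Above w v := by
  have hv : v.asIdeal.IsMaximal := v.isMaximal
  obtain ⟨P, hP, hl⟩ := Ideal.exists_maximal_ideal_liesOver_of_isIntegral (S := 𝓞 E) v.asIdeal
  have hne : P ≠ ⊥ := by
    rintro rfl
    apply v.ne_bot
    rw [hl.over]
    exact Ideal.under_bot _ _
  exact ⟨⟨P, hP.isPrime, hne⟩, hl.over.symm⟩

section conj

variable {K M : Type} [Field K] [NumberField K] [Field M] [NumberField M] [Algebra K M]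
  [IsGalois K M]

theorem exists_pull (w : HeightOneSpectrum (𝓞 M)) (g : M ≃ₐ[K] M) :
    ∃ w' : HeightOneSpectrum (𝓞 M), (∀ y : M, w.valuation M (g y) = w'.valuation M y) ∧
      bel K w' = bel K w := by
  have h1 : ∀ y : M, (gw g⁻¹ w).valuation M (g⁻¹ y) = w.valuation M y :=
    fun y => val_smul g⁻¹ w (gw g⁻¹ w) rfl y
  refine ⟨gw g⁻¹ w, fun y => ?_, bel_smul g⁻¹ w (gw g⁻¹ w) rfl⟩
  have h2 := h1 (g y)
  have h3 : g⁻¹ (g y) = y := by
    show (g⁻¹ * g) y = y
    rw [inv_mul_cancel]; rfl
  rw [h3] at h2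
  exact h2.symm

theorem ram_ne (W : HeightOneSpectrum (𝓞 M)) :
    (bel K W).asIdeal.ramificationIdx' W.asIdeal ≠ 0 := by
  rw [Ideal.ramificationIdx'_eq_ramificationIdx (bel K W).asIdeal W.asIdeal (bel K W).ne_bot]
  intro h0
  have h1 := efg (K := K) W
  rw [h0] at h1
  have h2 := finrank_pos (R := K) (M := M)
  simp at h1
  omega

theorem val_lt_iff {W : HeightOneSpectrum (𝓞 M)} {w : HeightOneSpectrum (𝓞 K)}
    (h : Above W w) (x : K) :
    W.valuation M (algebraMap K M x) < 1 ↔ w.valuation K x < 1 := by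
  obtain rfl := bel_of_above h
  rw [valW W x]
  exact pow_lt_one_iff (ram_ne W)

theorem val_le_iff {W : HeightOneSpectrum (𝓞 M)} {w : HeightOneSpectrum (𝓞 K)}
    (h : Above W w) (x : K) :
    W.valuation M (algebraMap K M x) ≤ 1 ↔ w.valuation K x ≤ 1 := by
  obtain rfl := bel_of_above h
  rw [valW W x]
  exact pow_le_one_iff (ram_ne W)

/-- integrality at the primes above `S` is preserved by the Galois group -/
theorem int_act {S : Set (HeightOneSpectrum (𝓞 K))} {x : M}
    (h : ∀ w ∈ upS M S, w.valuation M x ≤ 1) (g : M ≃ₐ[K] M) :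
    ∀ w ∈ upS M S, w.valuation M (g x) ≤ 1 := by
  rintro w ⟨v, hv, hw⟩
  obtain ⟨w', h1, h2⟩ := exists_pull (K := K) w g
  rw [h1]
  refine h w' ⟨v, hv, ?_⟩
  rw [bel_of_above hw] at h2
  rw [← h2]; rfl

/-- the trace of an integral element is integral -/
theorem int_trace {S : Set (HeightOneSpectrum (𝓞 K))} {x : M}
    (h : ∀ w ∈ upS M S, w.valuation M x ≤ 1) :
    ∀ W ∈ S, W.valuation K (Algebra.trace K M x) ≤ 1 := by
  intro W hW
  obtain ⟨w, hw⟩ := exists_above K M W
  rw [← val_le_iff hw, trace_eq_sum_automorphisms]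
  exact Valuation.map_sum_le _ fun g _ => int_act h g w ⟨W, hW, hw⟩

end conj

/-- the primes above `p` are finite in number -/
theorem fin_primes {F : Type} [Field F] [NumberField F] (p : ℕ) [Fact p.Prime]
    (S : Set (HeightOneSpectrum (𝓞 F))) (hS : ∀ W ∈ S, W.valuation F (p : F) < 1) : S.Finite := by
  refine (HeightOneSpectrum.Support.finite (𝓞 F) (p : F)⁻¹).subset ?_
  intro W hW
  have hp : (p : F) ≠ 0 := Nat.cast_ne_zero.mpr (Fact.out : p.Prime).ne_zero
  show 1 < W.valuation F (p : F)⁻¹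
  rw [map_inv₀]
  exact (one_lt_inv₀ (zero_lt_iff.mpr ((Valuation.ne_zero_iff _).mpr hp))).mpr (hS W hW)

/-- clearing denominators -/
theorem clear {F : Type} [Field F] [NumberField F] (p : ℕ) [Fact p.Prime]
    (S : Set (HeightOneSpectrum (𝓞 F))) (hS : ∀ W ∈ S, W.valuation F (p : F) < 1) (x : F) :
    ∃ m : ℕ, ∀ k, m ≤ k → ∀ W ∈ S, W.valuation F ((p : F) ^ k * x) ≤ 1 := by
  have hfin := fin_primes p S hS
  have h1 : ∀ W ∈ S, ∃ m : ℕ, ∀ k, m ≤ k → W.valuation F ((p : F) ^ k * x) ≤ 1 := by
    intro W hW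
    by_cases hx : x = 0
    · exact ⟨0, fun k _ => by rw [hx, mul_zero, map_zero]; exact zero_le_one⟩
    · have hx0 : W.valuation F x ≠ 0 := (Valuation.ne_zero_iff _).mpr hx
      obtain ⟨m, hm⟩ := exists_pow_lt₀ (hS W hW) (Units.mk0 _ hx0)⁻¹
      refine ⟨m, fun k hk => ?_⟩
      rw [map_mul, map_pow]
      have h2 : W.valuation F (p : F) ^ k ≤ W.valuation F (p : F) ^ m :=
        pow_le_pow_right_of_le_one' (hS W hW).le hk
      have h3 : W.valuation F (p : F) ^ k ≤ (W.valuation F x)⁻¹ := by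
        refine h2.trans ?_
        have := hm.le
        simpa using this
      calc W.valuation F (p : F) ^ k * W.valuation F x ≤ (W.valuation F x)⁻¹ * W.valuation F x :=
            mul_le_mul_left h3 _
        _ = 1 := inv_mul_cancel₀ hx0
  choose! m hm using h1
  refine ⟨hfin.toFinset.sup m, fun k hk W hW => hm W hW k ?_⟩
  exact (Finset.le_sup (f := m) (hfin.mem_toFinset.mpr hW)).trans hk

/-- the ring of the elements integral at `S` -/
def RS {F : Type} [Field F] [NumberField F] (S : Set (HeightOneSpectrum (𝓞 F))) : Subring F where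
  carrier := {x | ∀ W ∈ S, W.valuation F x ≤ 1}
  mul_mem' := fun {a b} ha hb W hW => by
    rw [map_mul]
    exact mul_le_one' (ha W hW) (hb W hW)
  one_mem' := fun W _ => by rw [map_one]
  add_mem' := fun {a b} ha hb W hW => (Valuation.map_add _ a b).trans (max_le (ha W hW) (hb W hW))
  zero_mem' := fun W _ => by rw [map_zero]; exact zero_le_one
  neg_mem' := fun {a} ha W hW => by rw [Valuation.map_neg]; exact ha W hW

theorem mem_RS {F : Type} [Field F] [NumberField F] (S : Set (HeightOneSpectrum (𝓞 F))) (x : F) :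
    x ∈ RS S ↔ ∀ W ∈ S, W.valuation F x ≤ 1 := Iff.rfl

theorem t : Pool.Agent.Helper51.SDL.S_LOC := by
  classical
  intro p _ F L _ _ _ _ _ _ n σ hn hgen S hne hS
  have hpF : (p : F) ≠ 0 := Nat.cast_ne_zero.mpr (Fact.out : p.Prime).ne_zero
  have hpL : (p : L) ≠ 0 := Nat.cast_ne_zero.mpr (Fact.out : p.Prime).ne_zero
  have hfd : FiniteDimensional F L := inferInstance
  have hn0 : 0 < n := by rw [← hn]; exact finrank_pos
  have hcard : Nat.card (L ≃ₐ[F] L) = n := by rw [IsGalois.card_aut_eq_finrank, hn]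
  have hpow : σ ^ n = 1 := by rw [← hcard]; exact pow_card_eq_one'
  have hS' : ∀ w ∈ upS L S, w.valuation L (p : L) < 1 := by
    rintro w ⟨v, hv, hw⟩
    have := (val_lt_iff hw (p : F)).mpr (hS v hv)
    simpa using this
  -- the powers of `σ`
  let e : Fin n → (L ≃ₐ[F] L) := fun i => σ ^ (i : ℕ)
  have hsurj : Function.Surjective e := by
    intro g
    obtain ⟨i, rfl⟩ := hgen g
    refine ⟨⟨i % n, Nat.mod_lt _ hn0⟩, ?_⟩
    show σ ^ (i % n) = σ ^ i
    conv_rhs => rw [← Nat.mod_add_div i n, pow_add, pow_mul, hpow, one_pow, mul_one]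
  have hbij : Function.Bijective e := by
    letI : Fintype (L ≃ₐ[F] L) := Fintype.ofFinite _
    rw [Fintype.bijective_iff_surjective_and_card]
    refine ⟨hsurj, ?_⟩
    rw [Fintype.card_fin, ← hcard, Nat.card_eq_fintype_card]
  -- the generator
  obtain ⟨a₀, ha₀⟩ := exists_linearIndependent_algEquiv_apply F L
  have hli₀ : LinearIndependent F fun i : Fin n => (σ ^ (i : ℕ)) a₀ := ha₀.comp e hbij.injective
  obtain ⟨m₀, hm₀⟩ := clear p (upS L S) hS' a₀
  let a : L := (p : L) ^ m₀ * a₀
  have ha : ∀ w ∈ upS L S, w.valuation L a ≤ 1 := hm₀ m₀ le_rfl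
  have hσa : ∀ i : ℕ, (σ ^ i) a = ((p : F) ^ m₀) • (σ ^ i) a₀ := by
    intro i
    show (σ ^ i) ((p : L) ^ m₀ * a₀) = _
    rw [map_mul, map_pow, map_natCast, Algebra.smul_def, map_pow, map_natCast]
  have hli : LinearIndependent F fun i : Fin n => (σ ^ (i : ℕ)) a := by
    rw [Fintype.linearIndependent_iff] at hli₀ ⊢
    intro c hc i
    have h1 : ∑ i, (c i * (p : F) ^ m₀) • (σ ^ (i : ℕ)) a₀ = 0 := by
      rw [← hc]
      refine Finset.sum_congr rfl fun i _ => ?_
      rw [hσa, smul_smul]
    have h2 := hli₀ _ h1 i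
    exact (mul_eq_zero.mp h2).resolve_right (pow_ne_zero _ hpF)
  have : Nonempty (Fin n) := ⟨⟨0, hn0⟩⟩
  let b : Basis (Fin n) F L :=
    basisOfLinearIndependentOfCardEqFinrank hli (by rw [Fintype.card_fin, hn])
  have hb : ∀ i, b i = (σ ^ (i : ℕ)) a := by
    intro i
    exact congrFun (coe_basisOfLinearIndependentOfCardEqFinrank hli _) i
  -- extension of a coefficient vector
  let ex : (Fin n → F) → ℕ → F := fun c i => if h : i < n then c ⟨i, h⟩ else 0
  have hex : ∀ c : Fin n → F, ∑ i ∈ Finset.range n, algebraMap F L (ex c i) * (σ ^ i) a =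
      ∑ i, c i • b i := by
    intro c
    rw [Finset.sum_range]
    refine Finset.sum_congr rfl fun i _ => ?_
    rw [hb, Algebra.smul_def]
    simp [ex]
  -- the dual basis
  have hnd : (Algebra.traceForm F L).Nondegenerate := traceForm_nondegenerate F L
  let d : Basis (Fin n) F L := (Algebra.traceForm F L).dualBasis hnd b
  have hd : ∀ (x : L) (i : Fin n), b.repr x i = Algebra.trace F L (x * d i) := by
    intro x i
    have h1 : Algebra.trace F L (x * d i) = ∑ j, b.repr x j • Algebra.traceForm F L (b j) (d i) := by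
      conv_lhs => rw [← b.sum_repr x]
      rw [Finset.sum_mul, map_sum]
      refine Finset.sum_congr rfl fun j _ => ?_
      rw [smul_mul_assoc, map_smul]
      rfl
    rw [h1, Finset.sum_eq_single i]
    · have h2 : Algebra.traceForm F L (b i) (d i) = 1 := by
        rw [LinearMap.BilinForm.apply_dualBasis_right hnd (Algebra.traceForm_isSymm F) b i i, if_pos rfl]
      rw [h2, smul_eq_mul, mul_one]
    · intro j _ hj
      have h2 : Algebra.traceForm F L (b j) (d i) = 0 := by
        rw [LinearMap.BilinForm.apply_dualBasis_right hnd (Algebra.traceForm_isSymm F) b j i, if_neg hj]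
      rw [h2, smul_zero]
    · intro h; exact absurd (Finset.mem_univ i) h
  choose mm hmm using fun i => clear p (upS L S) hS' (d i)
  let M : ℕ := Finset.univ.sup mm
  refine ⟨RS S, a, M, mem_RS S, ?_, ?_, ?_⟩
  · refine ⟨hn0, inferInstance, hfd, hn, hgen, hpow, ?_, ?_, ?_, ?_, hpF⟩
    · intro x
      exact ⟨ex (b.repr x), by rw [hex, b.sum_repr]⟩
    · intro c hc i hi
      have h1 : ∑ i : Fin n, c i • b i = 0 := by
        rw [← hc, Finset.sum_range]
        refine Finset.sum_congr rfl fun i _ => ?_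
        rw [hb, Algebra.smul_def]
      exact Fintype.linearIndependent_iff.mp b.linearIndependent (fun i => c i) h1 ⟨i, hi⟩
    · intro x
      obtain ⟨m, hm⟩ := clear p S hS x
      exact ⟨m, hm m le_rfl⟩
    · intro r hr
      have h1 : ∀ W ∈ S, W.valuation F (1 + (p : F) * r) = 1 := by
        intro W hW
        refine Valuation.map_one_add_of_lt _ ?_
        rw [map_mul]
        exact mul_lt_one_of_lt_of_le (hS W hW) (hr W hW)
      have h2 : (1 + (p : F) * r) ≠ 0 := by
        obtain ⟨W, hW⟩ := hne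
        intro h0
        have := h1 W hW
        rw [h0, map_zero] at this
        exact zero_ne_one this
      refine ⟨(1 + (p : F) * r)⁻¹, ?_, mul_inv_cancel₀ h2⟩
      intro W hW
      rw [map_inv₀, h1 W hW, inv_one]
  · rintro x ⟨c, hc, rfl⟩ w hw
    refine Valuation.map_sum_le _ fun i _ => ?_
    rw [map_mul]
    refine mul_le_one' ?_ (int_act ha (σ ^ i) w hw)
    obtain ⟨v, hv, hwv⟩ := hw
    exact (val_le_iff hwv (c i)).mpr (hc i v hv)
  · intro x hx
    refine ⟨ex fun i => (p : F) ^ M * b.repr x i, ?_, ?_⟩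
    · intro i
      by_cases hi : i < n
      · have h1 : ex (fun i => (p : F) ^ M * b.repr x i) i = (p : F) ^ M * b.repr x ⟨i, hi⟩ := by
          simp [ex, hi]
        rw [h1, hd]
        have h2 : (p : F) ^ M * Algebra.trace F L (x * d ⟨i, hi⟩) =
            Algebra.trace F L (x * ((p : L) ^ M * d ⟨i, hi⟩)) := by
          rw [← smul_eq_mul, ← map_smul, Algebra.smul_def, map_pow, map_natCast]
          congr 1
          ring
        rw [h2]
        refine int_trace fun w hw => ?_
        rw [map_mul]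
        exact mul_le_one' (hx w hw)
          (hmm ⟨i, hi⟩ M (Finset.le_sup (f := mm) (Finset.mem_univ _)) w hw)
      · have h1 : ex (fun i => (p : F) ^ M * b.repr x i) i = 0 := by simp [ex, hi]
        rw [h1]
        exact (RS S).zero_mem
    · refine Eq.trans ?_ (hex fun i => (p : F) ^ M * b.repr x i).symm
      have h1 : ∑ i, ((p : F) ^ M * b.repr x i) • b i = (p : F) ^ M • ∑ i, b.repr x i • b i := by
        rw [Finset.smul_sum]
        refine Finset.sum_congr rfl fun i _ => ?_
        rw [smul_smul]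
      rw [h1, b.sum_repr, Algebra.smul_def, map_pow, map_natCast]

end Pool.Agent.Helper72.SDL.LOC
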